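import Pool.Agent.R925.Q.Inst

/-!
# Sections with symmetries: the section conjecture for sections with a nontrivial centraliser

Let `A` be a discrete valuation ring with finite residue field, whose field of fractions `k` has
characteristic zero, for instance the ring of integers of a finite extension `k` of `ℚ_p`, or the
local ring of a number field `k` at a prime ideal; completeness is not needed.  Let `ℓ` be a prime
number which is a unit in `A`, and let `f ∈ A[x]` be a polynomial whose leading coefficient is a unit,
whose reduction modulo the maximal ideal is separable, and whose degree is at least 3 and divisible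
by `ℓ`.  Let `d ∈ k` be not zero.  Let `C` be the smooth projective curve `d y^ℓ = f(x)` over `k`, of
genus `(ℓ - 1)(deg f - 2)/2`; it has good reduction over a finite extension of `k`.  Let
`F = k(x, y)` be its function field.
The branch points are the points `P_e = (e, 0)`, where `e` is a root of `f`.

Let `M` be the maximal pro-`ℓ` extension of `k̄ F` that is unramified over `C`, so that `Gal(M/F)` is
the geometrically pro-`ℓ` fundamental group of `C`, the quotient of `π₁(C)` by the kernel of
`π₁(C_k̄) → π₁(C_k̄)^(pro-ℓ)`.  The group `Gal(M/k̄(x))` is an extension of the cyclic group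
`Gal(k̄ F/k̄(x))` of order `ℓ` by `π₁(C_k̄)^(pro-ℓ)`.

**Theorem.**  For every section `s` of `Gal(M/F) → G_k` the following are equivalent.

* `s` is the section of a rational branch point: its image is contained in the decomposition group of
  a prolongation `W` of the valuation of a branch point `P_e`, `e ∈ k`.
* Some element `γ ≠ 1` of `Gal(M/k̄(x))` commutes with `s(H)` for some subgroup `H` of finite index of
  `G_k`.
* For some subgroup `H` of finite index of `G_k` the group `s(H)` is contained in the decomposition
  group of a prolongation of the valuation of a branch point.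

Then `W` is unique, and the elements `γ` of `Gal(M/k̄(x))` which commute with `s(H)` for some subgroup
`H` of finite index form a group of order `ℓ`.  For all other sections this group is trivial.

In other words, if `ζ ∈ k`, let `τ` be the automorphism `(x, y) ↦ (x, ζ y)` of `C`, where
`ζ^ℓ = 1 ≠ ζ`.  A section `s` whose conjugacy class is fixed by `τ`, or whose restriction to an
open subgroup of `G_k` has this property, is the section of a rational fixed point of `τ`: the
automorphism of `Gal(M/F)` given by `τ` is the conjugation by an element of `Gal(M/k̄(x))` over `τ`,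
so that the class of `s` is fixed by `τ` if and only if some `γ` over `τ` commutes with the image
of `s`.  Also, a section `s` of `C` and a section `s'` of a twist `C' : d' y^ℓ = f(x)`, where `d'/d` is
not an `ℓ`-th power, can only agree over a finite extension of `k` if both are sections of the same
rational branch point: for all `σ ∈ G_k` the element `γ = s(σ)⁻¹ s'(σ)` commutes with `s(H)`, if `H` is
normal in `G_k` and `s = s'` on `H`.

The theorem is stated for an arbitrary extension `N ⊇ M` of `F` in an algebraic closure `Ω` instead of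
`M`, and for the section of `Gal(M/F)` induced by a section of `Gal(N/F)`: this includes `N = M` and
the fields `N = F_U` with `Gal(F_U/F) = π₁(U)`, where `U` is an open subcurve of `C`, in particular
`U = C`.

The fundamental group is described through valuations.  Let `F_U` be the maximal extension of `F`
inside `Ω` which is unramified over the closed points of `U`, that is, over their local rings, which
are valuation rings of `F`.  Then `π₁(U) = Gal(F_U/F)`, and the map `π₁(U) → G_k` is the restriction
of automorphisms to the algebraic closure of `k` in `Ω`.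

Proof.  Let `φ` be a power of a Frobenius element of `G_k` contained in `H`, so that it acts on the residue field of the place of `k̄` by a power `q` of its
characteristic.  (1) An element `δ` of `Gal(M/k̄(x))` which commutes with `s(φ)` and fixes `y` is
trivial: it acts on the residue field of the Gauss valuation, the field belonging to the curve over
a finite field.  If it is not trivial there, take a finite level `L`, stable under `δ` and the
Frobenius elements, on which `δ` has order `ℓ`.  The elements `g^(ℓ^n)`, for Kummer generators `g` of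
the next levels, give by Kummer theory and the theory of cyclic extensions (with a bound of the
exponent given by a Herbrand quotient and an argument of Artin-Schreier type in place of the Weil
bounds) a nontrivial quotient of `Gal(M/L)^ab` on which `φ` acts trivially up to a bounded
exponent, which is impossible.  (2) So the centraliser of `s(H)` embeds in `Gal(k̄ F/k̄(x))`, and
all its nontrivial elements have order `ℓ`.  (3) An element of order `ℓ` of `Gal(M/k̄(x))` fixes exactly
one place of `M`, and this place lies above a branch point.  (4) The group `s(G_k)` normalises the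
group generated by `γ` because of (2), so it fixes this place.
-/

open Polynomial

namespace Pool.Agent.Results.MP_c385f6_ag.SectionsWithSymmetries

section definitions

variable (ℓ : ℕ) (k F Ω : Type) [Field k] [Field F] [Field Ω] [Algebra k F] [Algebra F Ω]
  [Algebra k Ω]

/-- The inertia group of the valuation ring `W` of `Ω`, as a subgroup of `Gal(Ω/F)`: the
automorphisms of `Ω` over `F` that map `W` onto itself and act as the identity on its residue
field. -/
noncomputable def inertia (W : ValuationSubring Ω) : Subgroup (Ω ≃ₐ[F] Ω) :=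
  (W.inertiaSubgroup F).map (W.decompositionSubgroup F).subtype

/-- `F_U`, for a set `U` of valuation rings of `F`: the elements of `Ω` fixed by the inertia groups
of all valuation rings `W` of `Ω` with `W ∩ F ∈ U`.  If `Ω` is an algebraic closure of a field `F`
of characteristic zero, this is the maximal extension of `F` in `Ω` unramified over `U`. -/
noncomputable def unramified (U : Set (ValuationSubring F)) : IntermediateField F Ω :=
  ⨅ W : {W : ValuationSubring Ω // W.comap (algebraMap F Ω) ∈ U},
    IntermediateField.fixedField (inertia F Ω W.1)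

/-- `k̄ F`, the compositum of `F` and of the algebraic closure of `k` in `Ω`. -/
noncomputable def geomField : IntermediateField F Ω :=
  IntermediateField.adjoin F (algebraicClosure k Ω : Set Ω)

/-- The algebraic extension `L` of `K` in `Ω` is unramified at all valuation rings of `Ω` that
contain `k`: every nonzero element of `L` has the same valuation as an element of `K`.  (If `K` is
a function field of one variable over the algebraic closure of `k` and `k` has characteristic zero,
then this says that `L/K` is unramified over all points of the smooth projective curve.) -/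
def Unramified {k K Ω : Type} [Field k] [Field K] [Field Ω] [Algebra k Ω] [Algebra K Ω]
    (L : IntermediateField K Ω) : Prop :=
  ∀ W : ValuationSubring Ω, (∀ c : k, algebraMap k Ω c ∈ W) → ∀ z ∈ L, z ≠ 0 →
    ∃ t : K, t ≠ 0 ∧ z / algebraMap K Ω t ∈ W ∧ (z / algebraMap K Ω t)⁻¹ ∈ W

/-- `L/K` is a finite Galois extension whose degree is a power of `ℓ`. -/
def FiniteProEll (ℓ : ℕ) {K Ω : Type} [Field K] [Field Ω] [Algebra K Ω]
    (L : IntermediateField K Ω) : Prop :=
  FiniteDimensional K L ∧ IsGalois K L ∧ ∃ m : ℕ, Module.finrank K L = ℓ ^ m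

/-- The maximal unramified pro-`ℓ` extension of `K` in `Ω`: the compositum of the finite Galois
extensions of `K` whose degree is a power of `ℓ` and which are unramified. -/
noncomputable def maxProEll (ℓ : ℕ) (k K Ω : Type) [Field k] [Field K] [Field Ω] [Algebra k Ω]
    [Algebra K Ω] : IntermediateField K Ω :=
  ⨆ L : {L : IntermediateField K Ω // FiniteProEll ℓ L ∧ Unramified (k := k) L}, L.1

/-- `M`, the maximal unramified pro-`ℓ` extension of `k̄ F` in `Ω`, as an extension of `F`. -/
noncomputable def proEllField : IntermediateField F Ω :=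
  (maxProEll ℓ k (geomField k F Ω) Ω).restrictScalars F

/-- The map `τ : M → M` acts as `σ : K → K` on the elements that the fields `K` and `M` have in
common when they are regarded as subfields of `Ω` through `i` and `j`. -/
def ActsAs {K M Ω : Type} [Field K] [Field M] [Field Ω] (i : K →+* Ω) (j : M →+* Ω) (σ : K → K)
    (τ : M → M) : Prop :=
  ∀ c z, j z = i c → j (τ z) = i (σ c)

/-- Let `k ⊆ K ⊆ Ω` and `F ⊆ N ⊆ Ω` be fields.  A splitting of `Gal(N/F) → Gal(K/k)`: a continuous
homomorphism `s` from `Gal(K/k)` to `Gal(N/F)` such that `s(σ)` acts as `σ` on the elements of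
`K ∩ N`. -/
structure Splitting (K N : Type) [Field K] [Field N] [Algebra k K] [Algebra F N] [Algebra K Ω]
    [Algebra N Ω] where
  /-- the homomorphism `Gal(K/k) → Gal(N/F)` -/
  toHom : (K ≃ₐ[k] K) →* (N ≃ₐ[F] N)
  cont : Continuous toHom
  compat : ∀ σ : K ≃ₐ[k] K, ActsAs (algebraMap K Ω) (algebraMap N Ω) σ (toHom σ)

end definitions

section places

/-- The valuation ring `W` of `N` contains `k`, and the function `t ∈ F` is in its maximal ideal. -/
def ZeroAt (k : Type) {F N : Type} [Field k] [Field F] [Field N] [Algebra k F] [Algebra F N]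
    (W : ValuationSubring N) (t : F) : Prop :=
  (∀ c : k, algebraMap F N (algebraMap k F c) ∈ W) ∧ algebraMap F N t ∈ W.nonunits

/-- The residue field of `W ∩ F` is `k`. -/
def RationalResidue (k F : Type) {N : Type} [Field k] [Field F] [Field N] [Algebra k F]
    [Algebra F N] (W : ValuationSubring N) : Prop :=
  ∀ z : F, algebraMap F N z ∈ W → ∃ c : k, algebraMap F N (z - algebraMap k F c) ∈ W.nonunits

variable {k F Ω K N : Type} [Field k] [Field F] [Field Ω] [Field K] [Field N]
    [Algebra k F] [Algebra k K] [Algebra F N] [Algebra F Ω] [Algebra K Ω] [Algebra N Ω]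

/-- The image of the subgroup `H` of `Gal(K/k)` under `s : Gal(K/k) → Gal(N/F)` and the restriction to
`M`, where `M ⊆ N ⊆ Ω`, is contained in the decomposition group of the valuation ring `W ∩ M`. -/
def InDecomposition (s : Splitting k F Ω K N) (H : Subgroup (K ≃ₐ[k] K))
    (M : IntermediateField F Ω) (W : ValuationSubring N) : Prop :=
  ∀ σ ∈ H, ∀ z : N, algebraMap N Ω z ∈ M → (s.toHom σ z ∈ W ↔ z ∈ W)

/-- The splitting `s` of `Gal(N/F) → Gal(K/k)` induces on `M ⊆ N` the section of exactly one branch
point, and this is a rational one: there is a valuation ring `W` of `N` above a branch point `x = e`,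
where `e ∈ k` is a root of `f`, with residue field `k`, such that the image of `s` in `Gal(M/F)` is
contained in the decomposition group of `W ∩ M`; and `W ∩ M` is the only such valuation ring above
a branch point, that is, with `f(x)` in its maximal ideal. -/
def FromOneBranchPoint (f : k[X]) (x : F) (s : Splitting k F Ω K N) (M : IntermediateField F Ω) :
    Prop :=
  ∃ W : ValuationSubring N,
    (∃ e : k, f.eval e = 0 ∧ ZeroAt k W (x - algebraMap k F e)) ∧ RationalResidue k F W ∧
    InDecomposition s ⊤ M W ∧
    ∀ W' : ValuationSubring N, ZeroAt k W' (aeval x f) → InDecomposition s ⊤ M W' →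
      ∀ z : N, algebraMap N Ω z ∈ M → (z ∈ W' ↔ z ∈ W)

/-- The automorphism `γ` of `M` commutes with the automorphism of `M` given by the map `τ : N → N`: if
`τ` maps `z ∈ M` to `w ∈ M`, then it maps `γ(z)` to `γ(w)`. -/
def CommutesWith (M : IntermediateField F Ω) (γ : M ≃+* M) (τ : N → N) : Prop :=
  ∀ (z w : M) (a b : N), algebraMap N Ω a = z → algebraMap N Ω b = γ z →
    algebraMap N Ω (τ a) = w → algebraMap N Ω (τ b) = γ w

/-- `γ` is a nontrivial element of `Gal(M/k̄(x))` which commutes with the image of `H` under `s`: it is
an automorphism of the field `M` different from the identity, which fixes `x` and the elements of `M`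
that are algebraic over `k`, and it commutes with the action of `s(σ)` on `M` for all `σ ∈ H`. -/
structure IsSymmetry [Algebra k Ω] (x : F) (s : Splitting k F Ω K N) (H : Subgroup (K ≃ₐ[k] K))
    (M : IntermediateField F Ω) (γ : M ≃+* M) : Prop where
  nontrivial : γ ≠ RingEquiv.refl M
  const : ∀ z : M, IsAlgebraic k (z : Ω) → γ z = z
  base : γ (algebraMap F M x) = algebraMap F M x
  comm : ∀ σ ∈ H, CommutesWith M γ (s.toHom σ)

/-- For some subgroup `H` of finite index of `Gal(K/k)` some `γ ≠ 1` in `Gal(M/k̄(x))` commutes with the
image of `H` under `s`. -/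
def HasSymmetry [Algebra k Ω] (x : F) (s : Splitting k F Ω K N) (M : IntermediateField F Ω) :
    Prop :=
  ∃ H : Subgroup (K ≃ₐ[k] K), H.FiniteIndex ∧ ∃ γ, IsSymmetry x s H M γ

/-- If `γ` and `γ'` are symmetries of `s`, for two subgroups of finite index, then `γ^ℓ = 1` and `γ'` is
a power of `γ`. -/
def SymmetriesArePowers [Algebra k Ω] (ℓ : ℕ) (x : F) (s : Splitting k F Ω K N)
    (M : IntermediateField F Ω) : Prop :=
  ∀ (H H' : Subgroup (K ≃ₐ[k] K)) (γ γ' : M ≃+* M), H.FiniteIndex → H'.FiniteIndex →
    IsSymmetry x s H M γ → IsSymmetry x s H' M γ' →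
    (∀ z, γ^[ℓ] z = z) ∧ ∃ i : ℕ, ∀ z, γ' z = γ^[i] z

/-- For some subgroup `H` of finite index of `Gal(K/k)` the image of `H` under `s` in `Gal(M/F)` is
contained in the decomposition group of a valuation ring above a branch point. -/
def FromBranchPointOverFiniteIndex (f : k[X]) (x : F) (s : Splitting k F Ω K N)
    (M : IntermediateField F Ω) : Prop :=
  ∃ H : Subgroup (K ≃ₐ[k] K), H.FiniteIndex ∧
    ∃ W : ValuationSubring N, ZeroAt k W (aeval x f) ∧ InDecomposition s H M W

end places

section curves

/-- `F = k(x, y)` is the function field of the curve `d y^ℓ = f(x)`. -/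
def IsFunctionField {k F : Type} [Field k] [Field F] [Algebra k F] (ℓ : ℕ) (f : k[X]) (d : k)
    (x y : F) : Prop :=
  Transcendental k x ∧ algebraMap k F d * y ^ ℓ = aeval x f ∧
    IntermediateField.adjoin k {x, y} = (⊤ : IntermediateField k F)

/-- Let `F = k(x, y)` be the function field of the curve `C : d y^ℓ = f(x)`, let `Ω` be an algebraic
closure of `F` and `M = proEllField ℓ k F Ω`.  Then `M ⊆ F_U` for all sets `U` of valuation rings of
`F` over `k`.  Let `N ⊇ M` be an extension of `F` in `Ω`, for instance `N = M` or `N = F_U`, and let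
`s` be a section of `Gal(N/F) → G_k`.  Then `s` induces on `M` the section of exactly one branch point
and this is a rational one, if and only if it has a symmetry `γ` for some subgroup `H` of finite
index of `G_k`, and if and only if the image of some subgroup `H` of finite index of `G_k` in
`Gal(M/F)` is contained in the decomposition group of a valuation ring above a branch point.
If `γ` and `γ'` are symmetries of `s` (for two subgroups of finite index), then `γ^ℓ = 1` and `γ'` is a
power of `γ`. -/
def SymmetriesOfSections (k : Type) [Field k] (ℓ : ℕ) (f : k[X]) (d : k) : Prop :=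
  ∀ (F Ω : Type) [Field F] [Field Ω] [Algebra k F] [Algebra F Ω] [Algebra k Ω]
    [IsScalarTower k F Ω] [IsAlgClosure F Ω] (x y : F), IsFunctionField ℓ f d x y →
    (∀ U : Set (ValuationSubring F), (∀ O ∈ U, ∀ c : k, algebraMap k F c ∈ O) →
      proEllField ℓ k F Ω ≤ unramified F Ω U) ∧
    ∀ N : IntermediateField F Ω, proEllField ℓ k F Ω ≤ N →
      ∀ s : Splitting k F Ω (algebraicClosure k Ω) N,
        (FromOneBranchPoint f x s (proEllField ℓ k F Ω) ↔
          HasSymmetry x s (proEllField ℓ k F Ω)) ∧
        (FromOneBranchPoint f x s (proEllField ℓ k F Ω) ↔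
          FromBranchPointOverFiniteIndex f x s (proEllField ℓ k F Ω)) ∧
        SymmetriesArePowers ℓ x s (proEllField ℓ k F Ω)

end curves

lemma iSup_congr_prop {α : Type} [CompleteLattice α] {P Q : α → Prop} (h : ∀ L, P L ↔ Q L) :
    (⨆ L : {L // P L}, L.1) = ⨆ L : {L // Q L}, L.1 := by
  have h1 : P = Q := funext fun L => propext (h L)
  subst h1
  rfl

lemma proEll_eq (ℓ : ℕ) (k F Ω : Type) [Field k] [Field F] [Field Ω] [Algebra k F] [Algebra F Ω]
    [Algebra k Ω] : proEllField ℓ k F Ω = Pool.Agent.Y157.PS.geomPro ℓ k F Ω := by
  unfold proEllField Pool.Agent.Y157.PS.geomPro maxProEll Pool.Agent.Y157.PS.maxPro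
  congr 1
  refine iSup_congr_prop fun L => ?_
  constructor
  · rintro ⟨⟨h1, h2, h3⟩, h4⟩
    refine ⟨⟨h1, h2, h3⟩, fun W hW z hz hz0 => ?_⟩
    obtain ⟨t, ht, h5, h6⟩ := h4 W hW z hz hz0
    exact ⟨t, ht, div_ne_zero hz0 ((_root_.map_ne_zero _).2 ht), h5, h6⟩
  · rintro ⟨⟨h1, h2, h3⟩, h4⟩
    refine ⟨⟨h1, h2, h3⟩, fun W hW z hz hz0 => ?_⟩
    obtain ⟨t, ht, -, h5, h6⟩ := h4 W hW z hz hz0
    exact ⟨t, ht, h5, h6⟩

theorem core (k : Type) [Field k] [CharZero k] (ℓ : ℕ) [Fact ℓ.Prime] (f : k[X])
    (hf : f.Separable) (hℓ : ℓ ∣ f.natDegree) (h3 : 3 ≤ f.natDegree) (d : k) (hd : d ≠ 0)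
    (hRR : ∀ (κ : Type) [Field κ] [Algebra k κ] [IsAlgClosure k κ],
      Pool.Agent.R925.Q.RR ℓ k κ f) :
    SymmetriesOfSections k ℓ f d := by
  intro F Ω _ _ _ _ _ _ _ x y hxyF
  obtain ⟨hx, hxy, hF⟩ := hxyF
  have hcl : IsAlgClosed Ω := IsAlgClosure.isAlgClosed F
  have halg : Algebra.IsAlgebraic F Ω := IsAlgClosure.isAlgebraic
  have hFx := Pool.Agent.Y157.PS.alg_of_eqn (Fact.out : ℓ.Prime).pos f _ hd x y hxy hF
  rw [proEll_eq]
  refine ⟨fun U hU => ?_, fun N hN s => ?_⟩
  · exact (Pool.Agent.Y157.PS.a_ind ℓ k F Ω x hx hFx U hU).1
  · have hac : IsAlgClosure k (algebraicClosure k Ω) := inferInstance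
    obtain ⟨m1, m2, m3⟩ := Pool.Agent.R925.Q.finN f hf hℓ h3 (hRR _) d hd x y hx hxy hF N hN
      s.toHom s.cont (fun σ c z hz => s.compat σ c z hz)
    have hsym : ∀ H γ, IsSymmetry x s H (Pool.Agent.Y157.PS.geomPro ℓ k F Ω) γ →
        Pool.Agent.R925.Q.Sy k x (Pool.Agent.Y157.PS.geomPro ℓ k F Ω) N s.toHom H γ :=
      fun H γ h => ⟨h.1, h.2, h.3, h.4⟩
    have hsym' : ∀ H γ, Pool.Agent.R925.Q.Sy k x (Pool.Agent.Y157.PS.geomPro ℓ k F Ω) N s.toHom H γ →
        IsSymmetry x s H (Pool.Agent.Y157.PS.geomPro ℓ k F Ω) γ :=
      fun H γ h => ⟨h.1, h.2.1, h.2.2.1, h.2.2.2⟩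
    have g1 : HasSymmetry x s (Pool.Agent.Y157.PS.geomPro ℓ k F Ω) →
        FromOneBranchPoint f x s (Pool.Agent.Y157.PS.geomPro ℓ k F Ω) := by
      rintro ⟨H, hH, γ, hγ⟩
      obtain ⟨W, ⟨⟨a1, ⟨e, he, a2⟩, a3⟩, a4⟩, a5⟩ := m1 H hH.index_ne_zero γ (hsym H γ hγ)
      refine ⟨W, ⟨e, ?_, a1, a2⟩, a3, fun σ _ => a4 σ, fun W' b1 b2 => ?_⟩
      · rwa [aeval_def, Algebra.algebraMap_self, eval₂_id] at he
      · exact a5 W' b1.1 b1.2 fun σ => b2 σ trivial
    have g2 : FromOneBranchPoint f x s (Pool.Agent.Y157.PS.geomPro ℓ k F Ω) →
        FromBranchPointOverFiniteIndex f x s (Pool.Agent.Y157.PS.geomPro ℓ k F Ω) := by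
      rintro ⟨W, ⟨e, he, a1, a2⟩, -, a4, -⟩
      refine ⟨⊤, inferInstance, W, ⟨a1, ?_⟩, a4⟩
      obtain ⟨g, hg⟩ := dvd_iff_isRoot.2 he
      rw [hg, map_mul, map_mul, map_sub, aeval_X, aeval_C, mul_comm]
      have hxW : algebraMap F N x ∈ W := by
        have h5 : algebraMap F N x = algebraMap F N (x - algebraMap k F e) +
            algebraMap F N (algebraMap k F e) := by
          rw [← map_add, sub_add_cancel]
        rw [h5]
        exact add_mem (Pool.Agent.Y157.PS.nonunits_iff.1 a2).1 (a1 e)
      have hgW : algebraMap F N (aeval x g) ∈ W := by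
        rw [aeval_eq_sum_range, map_sum]
        refine sum_mem fun i _ => ?_
        rw [Algebra.smul_def, map_mul, map_pow]
        exact mul_mem (a1 _) (pow_mem hxW _)
      have h6 := (IsLocalRing.maximalIdeal W).mul_mem_left ⟨_, hgW⟩
        ((ValuationSubring.mem_nonunits_iff_exists_mem_maximalIdeal).1 a2).2
      exact (ValuationSubring.mem_nonunits_iff_exists_mem_maximalIdeal).2 ⟨mul_mem hgW
        (Pool.Agent.Y157.PS.nonunits_iff.1 a2).1, h6⟩
    have g3 : FromBranchPointOverFiniteIndex f x s (Pool.Agent.Y157.PS.geomPro ℓ k F Ω) →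
        HasSymmetry x s (Pool.Agent.Y157.PS.geomPro ℓ k F Ω) := by
      rintro ⟨H, hH, W, hW, hd⟩
      obtain ⟨H', hH', γ, hγ⟩ := m2 H hH.index_ne_zero W hW.1 hW.2 hd
      exact ⟨H', ⟨hH'⟩, γ, hsym' H' γ hγ⟩
    refine ⟨⟨fun h => g3 (g2 h), g1⟩, ⟨g2, fun h => g1 (g3 h)⟩, ?_⟩
    intro H H' γ γ' hH hH' hγ hγ'
    exact m3 H H' hH.index_ne_zero hH'.index_ne_zero γ γ' (hsym H γ hγ) (hsym H' γ' hγ')

/-- Let `A` be a discrete valuation ring with finite residue field, whose field of fractions `k` has
characteristic zero, `ℓ` a prime number which is a unit in `A`, `f ∈ A[x]` a polynomial whose leading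
coefficient is a unit, whose reduction is separable and whose degree is at least 3 and divisible by
`ℓ`, `d ∈ k` not zero, and `C` the curve `d y^ℓ = f(x)` over `k`.  A section of the geometrically
pro-`ℓ` fundamental group of `C` has a nontrivial symmetry (over some subgroup of finite index) if and
only if it is the section of a rational branch point, if and only if it belongs to a branch point
over some subgroup of finite index; and its symmetries are the powers of one of them, which has
order `ℓ`.  This holds also for sections induced from larger quotients of the Galois group of the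
function field, such as the fundamental groups of `C` and of its open subcurves. -/
theorem result (A k : Type) [CommRing A] [IsDomain A] [IsDiscreteValuationRing A]
    [Finite (IsLocalRing.ResidueField A)] [Field k] [CharZero k] [Algebra A k]
    [IsFractionRing A k] (ℓ : ℕ) [Fact ℓ.Prime] (hℓA : IsUnit (ℓ : A)) (f : A[X])
    (hlc : IsUnit f.leadingCoeff) (hf : (f.map (IsLocalRing.residue A)).Separable)
    (hℓ : ℓ ∣ f.natDegree) (h3 : 3 ≤ f.natDegree) (d : k) (hd : d ≠ 0) :
    SymmetriesOfSections k ℓ (f.map (algebraMap A k)) d :=
  core k ℓ (f.map (algebraMap A k)) (Pool.Agent.R925.Q.sep_map f hlc hf)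
    (by rwa [natDegree_map_eq_of_injective (IsFractionRing.injective A k)])
    (by rwa [natDegree_map_eq_of_injective (IsFractionRing.injective A k)]) d hd
    fun κ _ _ _ => Pool.Agent.R925.Q.rr_dvr hℓA f hlc hf

end Pool.Agent.Results.MP_c385f6_ag.SectionsWithSymmetries
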