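import Pool.Agent.R925.L.Fin

/-!
# The pro-`ℓ` section conjecture for twists by rotations over `p`-adic fields, `ℓ ≠ p`

Let `k` be a finite extension of `ℚ_p`, or any complete discretely valued field of characteristic
zero with finite residue field, let `A` be its valuation ring, let `ℓ` be a prime number which is
invertible in `A`, `m = ℓ^j` with `j ≥ 1`, and let `g ∈ A[x]` be a polynomial with invertible leading
coefficient such that the reduction of `g(x^m)` is separable and its degree is at least 3.  Let
`d ∈ k` be any element different from zero, and let `a ∈ k` be an element whose valuation is not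
divisible by `m`.  Let `C` be the smooth projective curve `d y^ℓ = g(a x^m)` over `k`, of genus
`(ℓ - 1)(m deg g - 2)/2`.  It is the twist of the curve `d y^ℓ = g(x^m)` by the automorphisms
`(x, y) ↦ (ζ x, y)`, `ζ^m = 1`: the two curves are isomorphic over `k(a^(1/m))`.  `C` has good
reduction over a ramified extension of `k`, but, if its genus is at least 2, not over `k`.

Let `F = k(x, y)` be the function field of `C`, and let `M` be the maximal pro-`ℓ` extension of
`k̄ F` that is unramified over `C`, so that `Gal(M/F)` is the geometrically pro-`ℓ` fundamental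
group of `C`, the quotient of `π₁(C)` by the kernel of `π₁(C_k̄) → π₁(C_k̄)^(pro-ℓ)`.

**Theorem.**  For every section `s` of `Gal(M/F) → G_k` there is exactly one prolongation `W` to `M`
of the valuation of a point of `C` with `x = 0`, `x = ∞` or `y = 0` such that the image of `s` is
contained in the decomposition group of `W`, and this point is a rational point of `C` with `x = 0`
or `x = ∞`.

So the sections of the geometrically pro-`ℓ` fundamental group are exactly the sections of the
rational points with `x = 0` or `x = ∞`, and different points of this kind have sections which are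
not conjugate.  The points with `x = 0` are given by `y^ℓ = g(0)/d`, and those with `x = ∞` by
`z^ℓ = lc(g) a^(deg g)/d`, where `z = y x^(-m deg g/ℓ)`; every rational point of `C` has the same
section as one of them.  In particular for every section of `π₁(C) → G_k`, and of `π₁(U) → G_k` for
an open subcurve `U`, the induced section of `Gal(M/F) → G_k` is the section of exactly one of these
rational points, and if neither `g(0)/d` nor `lc(g) a^(deg g)/d` is an `ℓ`-th power in `k`, then
there are no sections.

The theorem `ProEllSections` is the analogous result for the twists `d y^ℓ = f(x)` by the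
automorphisms `(x, y) ↦ (x, ξ y)`, `d` of valuation prime to `ℓ`, where the points are the branch
points of the covering `x`.  Here the valuation of `d` is arbitrary; the inertia group of `k` acts on
the good reduction through automorphisms of `ℓ`-power order `(x, y) ↦ (ζ x, ξ y)`, with `ζ ≠ 1`, which
permute the branch points without fixed points; some of their powers may fix `x`.

Here the theorem is stated for an arbitrary extension `N ⊇ M` of `F` in an algebraic closure `Ω`
instead of `M`: this includes `N = M` and the fields `N = F_U` with `Gal(F_U/F) = π₁(U)`.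

The fundamental group is described through valuations.  Let `U` be an open subcurve of `C`, let `Ω`
be an algebraic closure of `F`, and let `F_U` be the maximal extension of `F` inside `Ω` which is
unramified over the closed points of `U`, that is, over their local rings, which are valuation rings
of `F`.  Then `π₁(U) = Gal(F_U/F)`, and the map `π₁(U) → G_k` is the restriction of automorphisms to
the algebraic closure of `k` in `Ω`.

Proof.  Let `κ = k̄`, `ρ^m = a` and `δ^ℓ = d / lc(g)`, so that `X = ρ x` and `Y = δ y` satisfy
`Y^ℓ = ∏ (X - e)`, where `e` runs through the roots of `g(x^m)`, and `σ ∈ G_k` acts by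
`s(σ) X = (σρ/ρ) X`, `s(σ) Y = (σδ/δ) Y`.  (1) The Gauss valuation of `κ(X)` has exactly one
prolongation `O` to `M`, and the group of the automorphisms `γ` of `M` over `κ` with `γ(X) = ζ X`,
`ζ^m = 1`, acts faithfully on the residue field of `O`; for `σ` in the inertia group there is exactly
one `γ_σ` with the same action as `s(σ)`.  (2) If `σ` is in the inertia group and fixes `ρ` and `δ`,
then `γ_σ = 1`.  This is a weight argument: the field `E = k(ρ, δ)` has a discrete valuation ring with
finite residue field above `A`; by Kummer theory and the finiteness of the class group of a function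
field over a finite field the action of the inertia group of `E` on the residue field of `O` is
trivial.  (3) Let `τ` be a generator of tame inertia modulo the elements which fix `ρ` and `δ`.  Then
`γ = γ_τ` satisfies `γ^m = 1` and `γ(X) = ζ X` with `ζ ≠ 1`, as the valuation of `a` is not divisible by
`m`.  A power `η` of `γ` has order `ℓ`, and it moves `X`.  (4) An automorphism `η` of order `ℓ` of `M`
over `κ` with `η(κ(X)) = κ(X)` fixes exactly one place `W` of `M`; it is above `X = 0` or `∞` because
`η(X) ≠ X`.  By (2) `s(σ)` normalises the group generated by `γ`, so it fixes `W`.  (5) Uniqueness: a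
place `W'` above `X = 0` or `∞` which is fixed by the image of `s` is fixed by exactly one `c` of order
dividing `m` with `c(X) = ζ X`; it commutes with `s(τ)`, hence with `γ`, and `γ c^(-1)`, which has
finite order and fixes `X`, is trivial, as otherwise `c` would fix a place above a branch point.  So
`W'` is fixed by `γ = c`.
-/

open Polynomial

namespace Pool.Agent.Results.MP_c385f6_ag.TwistsByRotations

section definitions

variable (ℓ : ℕ) (k F Ω : Type) [Field k] [Field F] [Field Ω] [Algebra k F] [Algebra F Ω]
  [Algebra k Ω]

/-- The inertia group of the valuation ring `W` of `Ω`, as a subgroup of `Gal(Ω/F)`: the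
automorphisms of `Ω` over `F` that map `W` onto itself and act as the identity on its residue
field. -/
noncomputable def inertia (W : ValuationSubring Ω) : Subgroup (Ω ≃ₐ[F] Ω) :=
  (W.inertiaSubgroup F).map (W.decompositionSubgroup F).subtype

/-- `F_U`, for a set `U` of valuation rings of `F`: the elements of `Ω` fixed by the inertia groups
of all valuation rings `W` of `Ω` with `W ∩ F ∈ U`.  If `Ω` is an algebraic closure of a field `F`
of characteristic zero, this is the maximal extension of `F` in `Ω` unramified over `U`. -/
noncomputable def unramified (U : Set (ValuationSubring F)) : IntermediateField F Ω :=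
  ⨅ W : {W : ValuationSubring Ω // W.comap (algebraMap F Ω) ∈ U},
    IntermediateField.fixedField (inertia F Ω W.1)

/-- `k̄ F`, the compositum of `F` and of the algebraic closure of `k` in `Ω`. -/
noncomputable def geomField : IntermediateField F Ω :=
  IntermediateField.adjoin F (algebraicClosure k Ω : Set Ω)

/-- The algebraic extension `L` of `K` in `Ω` is unramified at all valuation rings of `Ω` that
contain `k`: every nonzero element of `L` has the same valuation as an element of `K`.  (If `K` is
a function field of one variable over the algebraic closure of `k` and `k` has characteristic zero,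
then this says that `L/K` is unramified over all points of the smooth projective curve.) -/
def Unramified {k K Ω : Type} [Field k] [Field K] [Field Ω] [Algebra k Ω] [Algebra K Ω]
    (L : IntermediateField K Ω) : Prop :=
  ∀ W : ValuationSubring Ω, (∀ c : k, algebraMap k Ω c ∈ W) → ∀ z ∈ L, z ≠ 0 →
    ∃ t : K, t ≠ 0 ∧ z / algebraMap K Ω t ∈ W ∧ (z / algebraMap K Ω t)⁻¹ ∈ W

/-- `L/K` is a finite Galois extension whose degree is a power of `ℓ`. -/
def FiniteProEll (ℓ : ℕ) {K Ω : Type} [Field K] [Field Ω] [Algebra K Ω]
    (L : IntermediateField K Ω) : Prop :=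
  FiniteDimensional K L ∧ IsGalois K L ∧ ∃ m : ℕ, Module.finrank K L = ℓ ^ m

/-- The maximal unramified pro-`ℓ` extension of `K` in `Ω`: the compositum of the finite Galois
extensions of `K` whose degree is a power of `ℓ` and which are unramified. -/
noncomputable def maxProEll (ℓ : ℕ) (k K Ω : Type) [Field k] [Field K] [Field Ω] [Algebra k Ω]
    [Algebra K Ω] : IntermediateField K Ω :=
  ⨆ L : {L : IntermediateField K Ω // FiniteProEll ℓ L ∧ Unramified (k := k) L}, L.1

/-- `M`, the maximal unramified pro-`ℓ` extension of `k̄ F` in `Ω`, as an extension of `F`. -/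
noncomputable def proEllField : IntermediateField F Ω :=
  (maxProEll ℓ k (geomField k F Ω) Ω).restrictScalars F

/-- The map `τ : M → M` acts as `σ : K → K` on the elements that the fields `K` and `M` have in
common when they are regarded as subfields of `Ω` through `i` and `j`. -/
def ActsAs {K M Ω : Type} [Field K] [Field M] [Field Ω] (i : K →+* Ω) (j : M →+* Ω) (σ : K → K)
    (τ : M → M) : Prop :=
  ∀ c z, j z = i c → j (τ z) = i (σ c)

/-- Let `k ⊆ K ⊆ Ω` and `F ⊆ N ⊆ Ω` be fields.  A splitting of `Gal(N/F) → Gal(K/k)`: a continuous
homomorphism `s` from `Gal(K/k)` to `Gal(N/F)` such that `s(σ)` acts as `σ` on the elements of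
`K ∩ N`. -/
structure Splitting (K N : Type) [Field K] [Field N] [Algebra k K] [Algebra F N] [Algebra K Ω]
    [Algebra N Ω] where
  /-- the homomorphism `Gal(K/k) → Gal(N/F)` -/
  toHom : (K ≃ₐ[k] K) →* (N ≃ₐ[F] N)
  cont : Continuous toHom
  compat : ∀ σ : K ≃ₐ[k] K, ActsAs (algebraMap K Ω) (algebraMap N Ω) σ (toHom σ)

end definitions

section places

/-- The valuation ring `W` of `N` contains `k`, and the function `t ∈ F` is in its maximal ideal. -/
def ZeroAt (k : Type) {F N : Type} [Field k] [Field F] [Field N] [Algebra k F] [Algebra F N]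
    (W : ValuationSubring N) (t : F) : Prop :=
  (∀ c : k, algebraMap F N (algebraMap k F c) ∈ W) ∧ algebraMap F N t ∈ W.nonunits

/-- The function `t ∈ F` has a zero or a pole at the valuation ring `W` of `N` over `k`. -/
def ZeroOrPole (k : Type) {F N : Type} [Field k] [Field F] [Field N] [Algebra k F] [Algebra F N]
    (W : ValuationSubring N) (t : F) : Prop :=
  ZeroAt k W t ∨ ZeroAt k W t⁻¹

/-- The residue field of `W ∩ F` is `k`. -/
def RationalResidue (k F : Type) {N : Type} [Field k] [Field F] [Field N] [Algebra k F]
    [Algebra F N] (W : ValuationSubring N) : Prop :=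
  ∀ z : F, algebraMap F N z ∈ W → ∃ c : k, algebraMap F N (z - algebraMap k F c) ∈ W.nonunits

/-- The image of `s : Gal(K/k) → Gal(N/F)` in `Gal(M/F)`, where `M ⊆ N ⊆ Ω`, is contained in the
decomposition group of the valuation ring `W ∩ M`. -/
def InDecomposition {k F Ω K N : Type} [Field k] [Field F] [Field Ω] [Field K] [Field N]
    [Algebra k K] [Algebra F N] [Algebra F Ω] [Algebra K Ω] [Algebra N Ω]
    (s : Splitting k F Ω K N) (M : IntermediateField F Ω) (W : ValuationSubring N) : Prop :=
  ∀ σ, ∀ z : N, algebraMap N Ω z ∈ M → (s.toHom σ z ∈ W ↔ z ∈ W)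

/-- The splitting `s` of `Gal(N/F) → Gal(K/k)` induces on `M ⊆ N` the section of exactly one point,
and this is a rational point with `x = 0` or `x = ∞`: there is a valuation ring `W` of `N` above a
point with `x = 0` or `x = ∞`, with residue field `k`, such that the image of `s` in `Gal(M/F)` is
contained in the decomposition group of `W ∩ M`; and `W ∩ M` is the only such valuation ring above a
point with `x = 0` or `x = ∞` or above a zero of the function `h`. -/
def FromOnePoint {k F Ω K N : Type} [Field k] [Field F] [Field Ω] [Field K] [Field N]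
    [Algebra k F] [Algebra k K] [Algebra F N] [Algebra F Ω] [Algebra K Ω] [Algebra N Ω]
    (h x : F) (s : Splitting k F Ω K N) (M : IntermediateField F Ω) : Prop :=
  ∃ W : ValuationSubring N,
    ZeroOrPole k W x ∧ RationalResidue k F W ∧ InDecomposition s M W ∧
    ∀ W' : ValuationSubring N, ZeroOrPole k W' x ∨ ZeroAt k W' h → InDecomposition s M W' →
      ∀ z : N, algebraMap N Ω z ∈ M → (z ∈ W' ↔ z ∈ W)

end places

section curves

/-- `F = k(x, y)` is the function field of the curve `d y^ℓ = g(a x^m)`. -/
def IsFunctionField {k F : Type} [Field k] [Field F] [Algebra k F] (ℓ m : ℕ) (g : k[X]) (a d : k)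
    (x y : F) : Prop :=
  Transcendental k x ∧ algebraMap k F d * y ^ ℓ = aeval (algebraMap k F a * x ^ m) g ∧
    IntermediateField.adjoin k {x, y} = (⊤ : IntermediateField k F)

/-- Let `F = k(x, y)` be the function field of the curve `C : d y^ℓ = g(a x^m)`, let `Ω` be an
algebraic closure of `F` and `M = proEllField ℓ k F Ω`.  Then `M ⊆ F_U` for all sets `U` of valuation
rings of `F` over `k`, in particular for the set of all closed points of `C` and for its subsets.  For
all extensions `N ⊇ M` of `F` in `Ω`, for instance `N = M` or `N = F_U`, every section of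
`Gal(N/F) → G_k` induces on `M` the section of exactly one of the points with `x = 0`, `x = ∞` or
`g(a x^m) = 0`, and this is a rational point of `C` with `x = 0` or `x = ∞`. -/
def SectionsFromZeroOrInfinity (k : Type) [Field k] (ℓ m : ℕ) (g : k[X]) (a d : k) : Prop :=
  ∀ (F Ω : Type) [Field F] [Field Ω] [Algebra k F] [Algebra F Ω] [Algebra k Ω]
    [IsScalarTower k F Ω] [IsAlgClosure F Ω] (x y : F), IsFunctionField ℓ m g a d x y →
    (∀ U : Set (ValuationSubring F), (∀ O ∈ U, ∀ c : k, algebraMap k F c ∈ O) →
      proEllField ℓ k F Ω ≤ unramified F Ω U) ∧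
    ∀ N : IntermediateField F Ω, proEllField ℓ k F Ω ≤ N →
      ∀ s : Splitting k F Ω (algebraicClosure k Ω) N,
        FromOnePoint (aeval (algebraMap k F a * x ^ m) g) x s (proEllField ℓ k F Ω)

/-- The leading coefficient of `g` is invertible, the reduction of `g(x^m)` is separable, and the
degree of `g(x^m)` is at least 3. -/
def GoodPolynomial {A : Type} [CommRing A] [IsLocalRing A] (m : ℕ) (g : A[X]) : Prop :=
  IsUnit g.leadingCoeff ∧ ((expand A m g).map (IsLocalRing.residue A)).Separable ∧
    3 ≤ (expand A m g).natDegree

/-- The valuation of `a` is not divisible by `m`: `a = t ϖ^n` with `t` invertible in `A`, `ϖ` a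
uniformiser and `n` not divisible by `m`. -/
def ValuationNotDivisible (A : Type) {k : Type} [CommRing A] [Field k] [Algebra A k] (m : ℕ) (a : k) :
    Prop :=
  ∃ (ϖ t : A) (n : ℤ), Irreducible ϖ ∧ IsUnit t ∧ ¬ (m : ℤ) ∣ n ∧
    a = algebraMap A k t * algebraMap A k ϖ ^ n

end curves

lemma iSup_congr_prop {α : Type} [CompleteLattice α] {P Q : α → Prop} (h : ∀ L, P L ↔ Q L) :
    (⨆ L : {L // P L}, L.1) = ⨆ L : {L // Q L}, L.1 := by
  have h1 : P = Q := funext fun L => propext (h L)
  subst h1
  rfl

lemma proEll_eq (ℓ : ℕ) (k F Ω : Type) [Field k] [Field F] [Field Ω] [Algebra k F] [Algebra F Ω]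
    [Algebra k Ω] : proEllField ℓ k F Ω = Pool.Agent.Y157.PS.geomPro ℓ k F Ω := by
  unfold proEllField Pool.Agent.Y157.PS.geomPro maxProEll Pool.Agent.Y157.PS.maxPro
  congr 1
  refine iSup_congr_prop fun L => ?_
  constructor
  · rintro ⟨⟨h1, h2, h3⟩, h4⟩
    refine ⟨⟨h1, h2, h3⟩, fun W hW z hz hz0 => ?_⟩
    obtain ⟨t, ht, h5, h6⟩ := h4 W hW z hz hz0
    exact ⟨t, ht, div_ne_zero hz0 ((_root_.map_ne_zero _).2 ht), h5, h6⟩
  · rintro ⟨⟨h1, h2, h3⟩, h4⟩
    refine ⟨⟨h1, h2, h3⟩, fun W hW z hz hz0 => ?_⟩
    obtain ⟨t, ht, -, h5, h6⟩ := h4 W hW z hz hz0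
    exact ⟨t, ht, h5, h6⟩

/-- Let `A` be a complete discrete valuation ring with finite residue field and with field of
fractions `k` of characteristic zero, `ℓ` a prime number invertible in `A`, `m = ℓ^j` with `j ≥ 1`,
`g ∈ A[x]` a polynomial with invertible leading coefficient such that `g(x^m)` has separable reduction
and degree at least 3, `a ∈ k` an element whose valuation is not divisible by `m`, and `d ∈ k` not
zero.  Then every section of the fundamental group of the curve `d y^ℓ = g(a x^m)`, of its open
subcurves, and of the geometrically pro-`ℓ` fundamental group of the curve, induces on the latter the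
section of exactly one of the points with `x = 0`, `x = ∞` or `y = 0`, and this is a rational point
with `x = 0` or `x = ∞`. -/
theorem result (A k : Type) [CommRing A] [IsDomain A] [IsDiscreteValuationRing A]
    [IsAdicComplete (IsLocalRing.maximalIdeal A) A] [Finite (IsLocalRing.ResidueField A)]
    [Field k] [CharZero k] [Algebra A k] [IsFractionRing A k] (ℓ : ℕ) [Fact ℓ.Prime] (j : ℕ)
    (hj : 1 ≤ j) (g : A[X]) (a d : k) (hℓ : IsUnit (ℓ : A)) (hg : GoodPolynomial (ℓ ^ j) g)
    (ha : ValuationNotDivisible A (ℓ ^ j) a) (hd : d ≠ 0) :
    SectionsFromZeroOrInfinity k ℓ (ℓ ^ j) (g.map (algebraMap A k)) a d := by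
  obtain ⟨hlc, hs, h3⟩ := hg
  obtain ⟨ϖ, t, n, hϖ, ht, hn, rfl⟩ := ha
  intro F Ω _ _ _ _ _ _ _ x y hxyF
  obtain ⟨hx, hxy, hF⟩ := hxyF
  have hcl : IsAlgClosed Ω := IsAlgClosure.isAlgClosed F
  have halg : Algebra.IsAlgebraic F Ω := IsAlgClosure.isAlgebraic
  have hFx := Pool.Agent.R925.L.alg_eqn (Fact.out : ℓ.Prime).pos (g.map (algebraMap A k)) _ d hd
    x y hxy hF
  rw [proEll_eq]
  refine ⟨fun U hU => ?_, fun N hN s => ?_⟩
  · exact (Pool.Agent.Y157.PS.a_ind ℓ k F Ω x hx hFx U hU).1
  · obtain ⟨W, ⟨⟨h1, h2, h3'⟩, h4⟩, hun⟩ :=
      Pool.Agent.R925.L.padicRM hℓ hj g hlc hs h3 ϖ hϖ _ d n hn t ht rfl hd x y hx hxy hF N hN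
        s.toHom s.cont (fun σ c z hz => s.compat σ c z hz)
    refine ⟨W, h2.imp (fun h => ⟨h1, h⟩) (fun h => ⟨h1, h⟩), h3', h4, fun W' b1 b2 => ?_⟩
    rcases b1 with (b1 | b1) | b1
    · exact hun W' b1.1 (Or.inl b1.2) b2
    · exact hun W' b1.1 (Or.inr (Or.inl b1.2)) b2
    · exact hun W' b1.1 (Or.inr (Or.inr b1.2)) b2

end Pool.Agent.Results.MP_c385f6_ag.TwistsByRotations
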